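import Pool.Agent.H5.M195d7c

set_option autoImplicit false

namespace Pool.Agent.Results.MP_195d7c_lc.ThreeLetters

/-- The equality set of two morphisms of free monoids, as a language. -/
def equalitySet {σ δ : Type} (h g : FreeMonoid σ →* FreeMonoid δ) : Language σ :=
  {w | h (FreeMonoid.ofList w) = g (FreeMonoid.ofList w)}

open Pool.Agent.H5.M195d7c in
/-- For every finite alphabet `σ` with at least three letters (in particular with exactly three
and with exactly four letters) there are a finite alphabet `δ` and two injective morphisms
from words over `σ` to words over `δ` whose equality set is not regular. -/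
theorem result (σ : Type) [Fintype σ] (hσ : 3 ≤ Fintype.card σ) :
    ∃ (δ : Type) (_ : Fintype δ) (h g : FreeMonoid σ →* FreeMonoid δ),
      Function.Injective h ∧ Function.Injective g ∧ ¬ (equalitySet h g).IsRegular := by
  classical
  obtain ⟨x, y, z, hxy, hxz, hyz⟩ := Fintype.two_lt_card_iff.1 hσ
  have key : ∀ (f : σ → List (Bool ⊕ σ)) (w : List σ),
      FreeMonoid.lift (fun s => FreeMonoid.ofList (f s)) (FreeMonoid.ofList w) =
        FreeMonoid.ofList (w.flatMap f) := by
    intro f w
    induction w with
    | nil => rfl
    | cons s w ih =>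
      rw [FreeMonoid.ofList_cons, map_mul, ih, FreeMonoid.lift_eval_of]
      rfl
  refine ⟨Bool ⊕ σ, inferInstance,
    FreeMonoid.lift (fun s => FreeMonoid.ofList (hh x y z s)),
    FreeMonoid.lift (fun s => FreeMonoid.ofList (gg x y z s)), ?_, ?_, ?_⟩
  · intro u v huv
    have h1 := key (hh x y z) (FreeMonoid.toList u)
    have h2 := key (hh x y z) (FreeMonoid.toList v)
    rw [FreeMonoid.ofList_toList] at h1 h2
    rw [h1, h2] at huv
    exact FreeMonoid.toList.injective (HH_inj x y z hxy hxz hyz _ _ (FreeMonoid.ofList.injective huv))
  · intro u v huv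
    have h1 := key (gg x y z) (FreeMonoid.toList u)
    have h2 := key (gg x y z) (FreeMonoid.toList v)
    rw [FreeMonoid.ofList_toList] at h1 h2
    rw [h1, h2] at huv
    exact FreeMonoid.toList.injective (GG_inj x y z hxy hxz hyz _ _ (FreeMonoid.ofList.injective huv))
  · have h1 : equalitySet (FreeMonoid.lift (fun s => FreeMonoid.ofList (hh x y z s)))
        (FreeMonoid.lift (fun s => FreeMonoid.ofList (gg x y z s))) = LL x y z := by
      ext w
      rw [mem_LL]
      show FreeMonoid.lift (fun s => FreeMonoid.ofList (hh x y z s)) (FreeMonoid.ofList w) =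
        FreeMonoid.lift (fun s => FreeMonoid.ofList (gg x y z s)) (FreeMonoid.ofList w) ↔ _
      rw [key, key]
      exact FreeMonoid.ofList.injective.eq_iff
    rw [h1]
    exact not_regular x y z hxy hxz hyz

end Pool.Agent.Results.MP_195d7c_lc.ThreeLetters
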